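import Pool.Agent.P8H39.FDF.Stm

/-!
# Package FIN of project FDF
-/

set_option autoImplicit false

namespace Pool.Agent.P8H78.FDF

open Finset P8H39.FDF

section av

variable {V : Type} [Fintype V]

theorem av_nonneg {f : V → ℝ} (h : ∀ x, 0 ≤ f x) : 0 ≤ av f := by
  unfold av
  exact div_nonneg (sum_nonneg fun x _ => h x) (Nat.cast_nonneg _)

theorem av_mono {f g : V → ℝ} (h : ∀ x, f x ≤ g x) : av f ≤ av g := by
  unfold av
  exact div_le_div_of_nonneg_right (sum_le_sum fun x _ => h x) (Nat.cast_nonneg _)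

theorem av_add (f g : V → ℝ) : (av fun x => f x + g x) = av f + av g := by
  unfold av
  rw [sum_add_distrib, add_div]

theorem av_sub (f g : V → ℝ) : (av fun x => f x - g x) = av f - av g := by
  unfold av
  rw [sum_sub_distrib, sub_div]

theorem av_mul (c : ℝ) (f : V → ℝ) : (av fun x => c * f x) = c * av f := by
  unfold av
  rw [← mul_sum, mul_div_assoc]

theorem av_const [Nonempty V] (c : ℝ) : (av fun _ : V => c) = c := by
  unfold av
  rw [sum_const, nsmul_eq_mul, card_univ]
  have : (Fintype.card V : ℝ) ≠ 0 := by exact_mod_cast Fintype.card_ne_zero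
  field_simp

theorem B_nonneg (b : Bool) : 0 ≤ B b := by
  unfold B
  split_ifs <;> norm_num

/-- the sizes of the parts sum to one -/
theorem al_sum [Nonempty V] (p : V → Fin 3) : al p 0 + al p 1 + al p 2 = 1 := by
  unfold al
  rw [← av_add, ← av_add, ← av_const (V := V) 1]
  congr 1
  funext y
  unfold B
  generalize p y = j
  fin_cases j <;> simp

/-- the density -/
theorem rho_eq [Nonempty V] (r : V → V → Bool) (p : V → Fin 3) :
    rho r = 1 - (al p 0 ^ 2 + al p 1 ^ 2 + al p 2 ^ 2) + (av fun x => ip r p x) -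
      (av fun x => mp r p x) := by
  have h1 : ∀ x, (av fun y => B (adj r x y)) = 1 - al p (p x) + ip r p x - mp r p x := by
    intro x
    unfold al ip mp
    rw [← av_const (V := V) 1, ← av_sub, ← av_add, ← av_sub]
    congr 1
    funext y
    by_cases h : p y = p x <;> cases h' : adj r x y <;> simp [B, h]
  have h2 : (av fun x => al p (p x)) = al p 0 ^ 2 + al p 1 ^ 2 + al p 2 ^ 2 := by
    have h3 : ∀ x, al p (p x) = al p 0 * B (decide (p x = 0)) + al p 1 * B (decide (p x = 1)) +
        al p 2 * B (decide (p x = 2)) := by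
      intro x
      generalize p x = j
      unfold B
      fin_cases j <;> simp
    have h4 : (av fun x => al p (p x)) = av fun x => al p 0 * B (decide (p x = 0)) +
        al p 1 * B (decide (p x = 1)) + al p 2 * B (decide (p x = 2)) := by
      congr 1
      funext x
      exact h3 x
    rw [h4, av_add, av_add, av_mul, av_mul, av_mul]
    change al p 0 * al p 0 + al p 1 * al p 1 + al p 2 * al p 2 = _
    ring
  unfold rho
  have h5 : (av fun x => av fun y => B (adj r x y)) =
      av fun x => 1 - al p (p x) + ip r p x - mp r p x := by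
    congr 1
    funext x
    exact h1 x
  rw [h5, av_sub, av_add, av_sub, av_const, h2]

theorem ip_perm (r : V → V → Bool) (p : V → Fin 3) (π : Equiv.Perm (Fin 3)) (x : V) :
    ip r (fun y => π (p y)) x = ip r p x := by
  unfold ip
  congr 1
  funext y
  have : decide (π (p y) = π (p x)) = decide (p y = p x) := by
    simp only [EmbeddingLike.apply_eq_iff_eq]
  rw [this]

theorem mp_perm (r : V → V → Bool) (p : V → Fin 3) (π : Equiv.Perm (Fin 3)) (x : V) :
    mp r (fun y => π (p y)) x = mp r p x := by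
  unfold mp
  congr 1
  funext y
  have : decide (π (p y) = π (p x)) = decide (p y = p x) := by
    simp only [EmbeddingLike.apply_eq_iff_eq]
  rw [this]

theorem al_perm (p : V → Fin 3) (π : Equiv.Perm (Fin 3)) (j : Fin 3) :
    al (fun y => π (p y)) (π j) = al p j := by
  unfold al
  congr 1
  funext y
  have : decide (π (p y) = π j) = decide (p y = j) := by
    simp only [EmbeddingLike.apply_eq_iff_eq]
  rw [this]

end av

theorem fin_num {a0 a1 a2 e m rh : ℝ} (hsum : a0 + a1 + a2 = 1) (h2 : 227 / 1000 ≤ a2)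
    (hm0 : a2 ≤ a0) (hm1 : a2 ≤ a1) (he : 0 ≤ e) (hm : 0 ≤ m)
    (hrho : rh = 1 - (a0 ^ 2 + a1 ^ 2 + a2 ^ 2) + e - m) (hrh : 654 / 1000 ≤ rh)
    (hG : 3 * ((a0 - 1/3) * (a1 - 1/3) * (a2 - 1/3)) + 835 / 1000 * e < 0) :
    1/3 - 96/1000 ≤ a2 ∧ a2 ≤ 1/3 ∧ 1/3 ≤ a0 ∧ 1/3 ≤ a1 := by
  obtain ⟨x, hx⟩ : ∃ x, x = a0 - 1/3 := ⟨_, rfl⟩
  obtain ⟨y, hy⟩ : ∃ y, y = a1 - 1/3 := ⟨_, rfl⟩
  obtain ⟨s, hs⟩ : ∃ s, s = 1/3 - a2 := ⟨_, rfl⟩
  have hxy : x + y = s := by linarith
  have e1 : a0 - 1/3 = x := hx.symm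
  have e2 : a1 - 1/3 = y := hy.symm
  have e3 : a2 - 1/3 = -s := by linarith
  rw [e1, e2, e3] at hG
  have hs0 : 0 ≤ s := by linarith
  have hprod : 0 < s * (x * y) := by
    have g2 : x * y * -s = -(s * (x * y)) := by ring
    rw [g2] at hG
    linarith
  have hs1 : 0 < s := by
    rcases hs0.lt_or_eq with h | h
    · exact h
    · rw [← h, zero_mul] at hprod
      exact absurd hprod (lt_irrefl 0)
  have hxy1 : 0 < x * y := (mul_pos_iff_of_pos_left hs1).1 hprod
  have hx0 : 0 < x := by
    by_contra hc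
    push Not at hc
    have : y ≤ 0 := by
      by_contra hc'
      push Not at hc'
      have := mul_nonpos_of_nonpos_of_nonneg hc hc'.le
      linarith
    linarith
  have hy0 : 0 < y := (mul_pos_iff_of_pos_left hx0).1 hxy1
  have hs2 : s ≤ 107 / 1000 := by linarith
  have h4 : x * y ≤ s ^ 2 / 4 := by
    rw [← hxy]
    nlinarith [sq_nonneg (x - y)]
  have h5 : 835 / 1000 * e ≤ 3 / 4 * s ^ 3 := by
    have g1 : s * (x * y) ≤ s * (s ^ 2 / 4) := mul_le_mul_of_nonneg_left h4 hs0
    have g2 : x * y * -s = -(s * (x * y)) := by ring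
    have g3 : s * (s ^ 2 / 4) = s ^ 3 / 4 := by ring
    rw [g2] at hG
    rw [g3] at g1
    linarith
  have h6 : s ^ 3 ≤ (107 / 1000) ^ 3 := by gcongr
  have h7 : e ≤ 111 / 100000 := by
    norm_num at h6
    linarith
  have h8 : x ^ 2 + y ^ 2 + s ^ 2 ≤ 1 - 654 / 1000 - 1 / 3 + e := by
    have e4 : a0 = x + 1/3 := by linarith
    have e5 : a1 = y + 1/3 := by linarith
    have e6 : a2 = 1/3 - s := by linarith
    rw [e4, e5, e6] at hrho
    have e7 : (x + 1/3) ^ 2 + (y + 1/3) ^ 2 + (1/3 - s) ^ 2 =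
        x ^ 2 + y ^ 2 + s ^ 2 + 2/3 * (x + y - s) + 1/3 := by ring
    rw [e7, hxy] at hrho
    linarith
  have h9 : s ^ 2 / 2 ≤ x ^ 2 + y ^ 2 := by
    rw [← hxy]
    nlinarith [sq_nonneg (x - y)]
  have h10 : s ≤ 96 / 1000 := by
    by_contra hc
    push Not at hc
    have g4 : (96 / 1000 : ℝ) ^ 2 < s ^ 2 := by gcongr
    norm_num at g4
    linarith
  refine ⟨by linarith, by linarith, by linarith, by linarith⟩

theorem t_FIN : S_FIN := by
  intro c1 c2 c3 hpart hglob hone V _ _ _ r hO hN hfv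
  by_contra hcon
  push Not at hcon
  have hn : (0 : ℝ) < (Fintype.card V : ℝ) := by exact_mod_cast Fintype.card_pos
  have hFF : FF r < 4/9 := by
    have : 0 < 11 / (Fintype.card V : ℝ) := by positivity
    linarith
  have h1 := c1 V r hO hN hfv
  have h2 := c2 V r hO hN hfv
  have h3 := c3 V r hO hN hfv
  -- the classes
  obtain ⟨x, y, z, hxyz⟩ : ∃ x y z, 6 * ce r (cls r x y z) + cu (cls r x y z) ≤ 45/10000 := by
    by_contra hc
    push Not at hc
    have : 0 ≤ (av fun x => av fun y => av fun z =>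
      B (tri r x y z) * (6 * ce r (cls r x y z) + cu (cls r x y z) - 45/10000)) := by
      refine av_nonneg fun x => av_nonneg fun y => av_nonneg fun z => ?_
      exact mul_nonneg (B_nonneg _) (by linarith [hc x y z])
    linarith
  obtain ⟨p0, hp0, hal0⟩ := hpart V r hO hfv h1 h3 ⟨_, hxyz⟩
  -- permutation of the parts
  obtain ⟨j, hj⟩ := Finite.exists_min (al p0)
  let π : Equiv.Perm (Fin 3) := Equiv.swap j 2
  let p : V → Fin 3 := fun y => π (p0 y)
  have hal : ∀ i, al p (π i) = al p0 i := fun i => al_perm p0 π i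
  have hal2 : al p 2 = al p0 j := by
    rw [← hal j]
    change al p 2 = al p ((Equiv.swap j 2) j)
    rw [Equiv.swap_apply_left]
  have hmin : ∀ i, al p 2 ≤ al p i := by
    intro i
    rw [hal2]
    have : i = π (π.symm i) := (Equiv.apply_symm_apply π i).symm
    rw [this, hal]
    exact hj _
  have hp : ∀ x, ip r p x + mp r p x ≤ 55/1000 := fun x => by
    have e1 : ip r p x = ip r p0 x := ip_perm r p0 π x
    have e2 : mp r p x = mp r p0 x := mp_perm r p0 π x
    rw [e1, e2]
    exact hp0 x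
  have hge : ∀ i, 227/1000 ≤ al p i := fun i => by
    have : i = π (π.symm i) := (Equiv.apply_symm_apply π i).symm
    rw [this, hal]
    exact hal0 _
  have hip : ∀ x, 0 ≤ ip r p x := fun x => av_nonneg fun _ => B_nonneg _
  have hmp : ∀ x, 0 ≤ mp r p x := fun x => av_nonneg fun _ => B_nonneg _
  have hG := hglob V r p hO
  have hV : 0 ≤ V3 r := av_nonneg fun _ => sq_nonneg _
  have hav : 835 / 1000 * (av fun x => ip r p x) ≤ av fun x => ip r p x * (1 - 3 * ip r p x) +
      mp r p x * (6 * al p (p x) - 1 - 6 * ip r p x - 3 * mp r p x) := by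
    rw [← av_mul]
    refine av_mono fun x => ?_
    have h4 := hip x
    have h5 := hmp x
    have h6 := hp x
    have h7 := hge (p x)
    have h8 : 0 ≤ mp r p x * (6 * al p (p x) - 1 - 6 * ip r p x - 3 * mp r p x) := by
      refine mul_nonneg h5 ?_
      linarith
    have h9 : 835 / 1000 * ip r p x ≤ ip r p x * (1 - 3 * ip r p x) := by nlinarith
    linarith
  obtain ⟨b1, b2, b3, b4⟩ := fin_num (al_sum p) (hge 2) (hmin 0) (hmin 1)
    (av_nonneg hip) (av_nonneg hmp) (rho_eq r p) h3 (by linarith)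
  have := hone V r p hO hN hp hge b1 b2 b3 b4
  linarith

end Pool.Agent.P8H78.FDF
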