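import Pool.Agent.P8H39.FDF.Stm

/-!
# Package LEV of project FDF
-/

set_option autoImplicit false

namespace Pool.Agent.P8H78.FDF

open Finset P8H39.FDF

/-- the double sum -/
theorem dsum (T : ℕ) : (2 / 3 : ℝ) * (T : ℝ) ^ 3 - (T : ℝ) ^ 2 ≤
    ∑ i ∈ range T, ∑ j ∈ range T, 2 * ((T : ℝ) - 1 - max (i : ℝ) j) := by
  have key : ∀ T : ℕ, ∑ i ∈ range T, ∑ j ∈ range T, 2 * ((T : ℝ) - 1 - max (i : ℝ) j) =
      ((2 * (T : ℝ) ^ 3 - 3 * (T : ℝ) ^ 2 + T) / 3) := by
    intro T
    induction T with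
    | zero => simp
    | succ T ih =>
      rw [sum_range_succ]
      have e1 : ∑ j ∈ range (T + 1), 2 * (((T + 1 : ℕ) : ℝ) - 1 - max (T : ℝ) j) = 0 := by
        refine sum_eq_zero fun j hj => ?_
        rw [mem_range] at hj
        have : (j : ℝ) ≤ T := by exact_mod_cast (by omega : j ≤ T)
        rw [max_eq_left this]
        push_cast
        ring
      have e2 : ∀ i ∈ range T, ∑ j ∈ range (T + 1), 2 * (((T + 1 : ℕ) : ℝ) - 1 - max (i : ℝ) j) =
          (∑ j ∈ range T, 2 * ((T : ℝ) - 1 - max (i : ℝ) j)) + 2 * T := by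
        intro i hi
        rw [mem_range] at hi
        have h1 : (i : ℝ) ≤ T := by exact_mod_cast hi.le
        rw [sum_range_succ, max_eq_right h1]
        have e3 : ∑ j ∈ range T, 2 * (((T + 1 : ℕ) : ℝ) - 1 - max (i : ℝ) j) =
            ∑ j ∈ range T, (2 * ((T : ℝ) - 1 - max (i : ℝ) j) + 2) := by
          refine sum_congr rfl fun j _ => ?_
          push_cast
          ring
        rw [e3, sum_add_distrib, sum_const, card_range, nsmul_eq_mul]
        push_cast
        ring
      rw [e1, sum_congr rfl e2, sum_add_distrib, ih, sum_const, card_range, nsmul_eq_mul]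
      push_cast
      ring
  rw [key]
  have : (0 : ℝ) ≤ T := Nat.cast_nonneg _
  linarith

/-- the square is at least the sum -/
theorem sq_ge (S : ℝ) (K f T : ℕ) (h : ((K + T : ℕ) : ℝ) ≤ S) :
    ∑ i ∈ range T, 2 * (S - ((K + 1 + i : ℕ) : ℝ)) * (if f < K + 1 + i then (1 : ℝ) else 0) ≤
      (max 0 (S - f)) ^ 2 := by
  have key : ∀ T : ℕ, ((K + T : ℕ) : ℝ) ≤ S → (f ≤ K + T →
      ∑ i ∈ range T, 2 * (S - ((K + 1 + i : ℕ) : ℝ)) * (if f < K + 1 + i then (1 : ℝ) else 0) ≤
        (S - f) ^ 2 - (S - ((K + T : ℕ) : ℝ)) ^ 2) ∧ (K + T < f →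
      ∑ i ∈ range T, 2 * (S - ((K + 1 + i : ℕ) : ℝ)) * (if f < K + 1 + i then (1 : ℝ) else 0)
        = 0) := by
    intro T
    induction T with
    | zero =>
      intro h
      refine ⟨fun h1 => ?_, fun _ => by simp⟩
      rw [range_zero, sum_empty]
      have h2 : (f : ℝ) ≤ ((K + 0 : ℕ) : ℝ) := by exact_mod_cast h1
      nlinarith
    | succ T ih =>
      intro h
      have hT : ((K + T : ℕ) : ℝ) ≤ S := by
        refine le_trans ?_ h
        exact_mod_cast (by omega : K + T ≤ K + (T + 1))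
      obtain ⟨ih1, ih2⟩ := ih hT
      refine ⟨fun h1 => ?_, fun h1 => ?_⟩
      · rw [sum_range_succ]
        rcases Nat.lt_or_ge f (K + 1 + T) with h2 | h2
        · have h3 := ih1 (by omega)
          rw [if_pos h2]
          push_cast at h3 ⊢
          nlinarith
        · have h3 := ih2 (by omega)
          have h4 : f = K + (T + 1) := by omega
          rw [h3, if_neg (by omega), h4]
          simp
      · rw [sum_range_succ, ih2 (by omega), if_neg (by omega)]
        simp
  obtain ⟨h1, h2⟩ := key T h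
  rcases Nat.lt_or_ge (K + T) f with h3 | h3
  · rw [h2 h3]
    positivity
  · have h4 := h1 h3
    have h5 : (f : ℝ) ≤ ((K + T : ℕ) : ℝ) := by exact_mod_cast h3
    rw [max_eq_right (by linarith)]
    nlinarith [sq_nonneg (S - ((K + T : ℕ) : ℝ))]

theorem t_LEV : S_LEV := by
  intro V _ r P Q K S hS0 hSP hyp
  rcases Nat.lt_or_ge K ⌊S⌋₊ with hK | hK
  swap
  · have h0 : ⌊S⌋₊ - K = 0 := by omega
    rw [h0]
    have h1 : 0 ≤ ∑ x ∈ P, (max 0 (S - ((oN r x Q).card : ℝ))) ^ 2 :=
      sum_nonneg fun _ _ => sq_nonneg _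
    have h2 : 0 ≤ ∑ y ∈ Q, (max 0 (S - ((oN r y P).card : ℝ))) ^ 2 :=
      sum_nonneg fun _ _ => sq_nonneg _
    simp only [Nat.cast_zero]
    linarith
  obtain ⟨T, hT⟩ : ∃ T, ⌊S⌋₊ = K + T := ⟨⌊S⌋₊ - K, by omega⟩
  have hT' : ⌊S⌋₊ - K = T := by omega
  rw [hT']
  have hKT : ((K + T : ℕ) : ℝ) ≤ S := by
    rw [← hT]
    exact Nat.floor_le hS0
  let A : ℕ → ℕ := fun i => (P.filter fun x => (oN r x Q).card < K + 1 + i).card
  let Bq : ℕ → ℕ := fun i => (Q.filter fun y => (oN r y P).card < K + 1 + i).card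
  let c : ℕ → ℝ := fun i => 2 * (S - ((K + 1 + i : ℕ) : ℝ))
  have hc : ∀ i, i < T → 2 * ((T : ℝ) - 1 - i) ≤ c i ∧ 0 ≤ 2 * ((T : ℝ) - 1 - i) := by
    intro i hi
    have h1 : (i : ℝ) + 1 ≤ T := by exact_mod_cast hi
    refine ⟨?_, by linarith⟩
    change _ ≤ 2 * (S - ((K + 1 + i : ℕ) : ℝ))
    push_cast at hKT ⊢
    linarith
  -- the dichotomy
  have hdi : ∀ i < T, ∀ j < T, j < A i ∨ i < Bq j := by
    intro i hi j hj
    by_contra hcon
    push Not at hcon
    obtain ⟨h1, h2⟩ := hcon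
    set Xs := P.filter fun x => (oN r x Q).card < K + 1 + i with hXs
    set Yt := Q.filter fun y => (oN r y P).card < K + 1 + j with hYt
    have h1' : Xs.card ≤ j := h1
    have h2' : Yt.card ≤ i := h2
    have hne : (P \ Xs).Nonempty := by
      rw [← card_pos]
      have h3 := le_card_sdiff Xs P
      have h4 : K + T ≤ P.card := by
        rw [← hT]
        have : ((⌊S⌋₊ : ℕ) : ℝ) ≤ P.card := (Nat.floor_le hS0).trans hSP
        exact_mod_cast this
      omega
    have h5 := hyp (P \ Xs) (Q \ Yt) (K + 1) sdiff_subset sdiff_subset hne ?_ ?_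
    · omega
    · intro x hx
      rw [mem_sdiff] at hx
      have h6 : K + 1 + i ≤ (oN r x Q).card := by
        by_contra h7
        exact hx.2 (mem_filter.2 ⟨hx.1, by omega⟩)
      have h7 : oN r x (Q \ Yt) = oN r x Q \ Yt := by
        unfold oN
        ext y
        simp only [mem_filter, mem_sdiff]
        tauto
      rw [h7]
      have h8 := le_card_sdiff Yt (oN r x Q)
      omega
    · intro y hy
      rw [mem_sdiff] at hy
      have h6 : K + 1 + j ≤ (oN r y P).card := by
        by_contra h7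
        exact hy.2 (mem_filter.2 ⟨hy.1, by omega⟩)
      have h7 : oN r y (P \ Xs) = oN r y P \ Xs := by
        unfold oN
        ext x
        simp only [mem_filter, mem_sdiff]
        tauto
      rw [h7]
      have h8 := le_card_sdiff Xs (oN r y P)
      omega
  -- counting
  have hcount : ∀ a : ℕ, ∑ j ∈ range T, (if j < a then (1 : ℝ) else 0) ≤ a := by
    intro a
    rw [← sum_filter, sum_const, nsmul_eq_mul, mul_one]
    have : ((range T).filter fun j => j < a) ⊆ range a := by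
      intro j hj
      rw [mem_filter] at hj
      exact mem_range.2 hj.2
    have h := card_le_card this
    rw [card_range] at h
    exact_mod_cast h
  have hP : ∑ i ∈ range T, c i * (A i : ℝ) ≤
      ∑ x ∈ P, (max 0 (S - ((oN r x Q).card : ℝ))) ^ 2 := by
    calc ∑ i ∈ range T, c i * (A i : ℝ)
        = ∑ i ∈ range T, ∑ x ∈ P, c i * (if (oN r x Q).card < K + 1 + i then (1 : ℝ) else 0) := by
          refine sum_congr rfl fun i _ => ?_
          rw [← mul_sum, ← sum_filter, sum_const, nsmul_eq_mul, mul_one]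
      _ = ∑ x ∈ P, ∑ i ∈ range T, c i * (if (oN r x Q).card < K + 1 + i then (1 : ℝ) else 0) :=
          sum_comm
      _ ≤ _ := sum_le_sum fun x _ => sq_ge S K _ T hKT
  have hQ : ∑ i ∈ range T, c i * (Bq i : ℝ) ≤
      ∑ y ∈ Q, (max 0 (S - ((oN r y P).card : ℝ))) ^ 2 := by
    calc ∑ i ∈ range T, c i * (Bq i : ℝ)
        = ∑ i ∈ range T, ∑ x ∈ Q, c i * (if (oN r x P).card < K + 1 + i then (1 : ℝ) else 0) := by
          refine sum_congr rfl fun i _ => ?_
          rw [← mul_sum, ← sum_filter, sum_const, nsmul_eq_mul, mul_one]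
      _ = ∑ x ∈ Q, ∑ i ∈ range T, c i * (if (oN r x P).card < K + 1 + i then (1 : ℝ) else 0) :=
          sum_comm
      _ ≤ _ := sum_le_sum fun x _ => sq_ge S K _ T hKT
  have hA : ∑ i ∈ range T, ∑ j ∈ range T, c i * (if j < A i then (1 : ℝ) else 0) ≤
      ∑ i ∈ range T, c i * (A i : ℝ) := by
    refine sum_le_sum fun i hi => ?_
    rw [mem_range] at hi
    rw [← mul_sum]
    exact mul_le_mul_of_nonneg_left (hcount _) ((hc i hi).2.trans (hc i hi).1)
  have hB : ∑ i ∈ range T, ∑ j ∈ range T, c j * (if i < Bq j then (1 : ℝ) else 0) ≤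
      ∑ j ∈ range T, c j * (Bq j : ℝ) := by
    rw [sum_comm]
    refine sum_le_sum fun i hi => ?_
    rw [mem_range] at hi
    rw [← mul_sum]
    exact mul_le_mul_of_nonneg_left (hcount _) ((hc i hi).2.trans (hc i hi).1)
  have hfin : ∑ i ∈ range T, ∑ j ∈ range T, 2 * ((T : ℝ) - 1 - max (i : ℝ) j) ≤
      ∑ i ∈ range T, ∑ j ∈ range T, c i * (if j < A i then (1 : ℝ) else 0) +
      ∑ i ∈ range T, ∑ j ∈ range T, c j * (if i < Bq j then (1 : ℝ) else 0) := by
    rw [← sum_add_distrib]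
    refine sum_le_sum fun i hi => ?_
    rw [← sum_add_distrib]
    refine sum_le_sum fun j hj => ?_
    rw [mem_range] at hi hj
    have hi1 := hc i hi
    have hj1 := hc j hj
    have m1 : 2 * ((T : ℝ) - 1 - max (i : ℝ) j) ≤ 2 * ((T : ℝ) - 1 - i) := by
      have := le_max_left (i : ℝ) j
      linarith
    have m2 : 2 * ((T : ℝ) - 1 - max (i : ℝ) j) ≤ 2 * ((T : ℝ) - 1 - j) := by
      have := le_max_right (i : ℝ) j
      linarith
    rcases hdi i hi j hj with h | h
    · rw [if_pos h]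
      split_ifs <;> linarith
    · rw [if_pos h]
      split_ifs <;> linarith
  have := dsum T
  linarith

end Pool.Agent.P8H78.FDF
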